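import Pool.Agent.L5helper88.CP.Blocks
import Pool.Agent.L5helper67.DC.PermCorner
import Pool.Agent.L5helper11.DP.Crit
import Pool.Agent.L5helper11.DC.C

/-!
Programs for the permanent, the part which does not depend on the size of the projection: a
family of polynomials which up to constants are permanents of `m₀ × m₀` matrices of affine forms
and tend to the sum of the elementary symmetric polynomials `e_{q+1}` in `2 q` variables, one for
each element of `L`, gives an inequality for the number of multiplications and divisions of a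
program for the permanent of size `m ≥ m₀`.
-/

set_option autoImplicit false

set_option linter.unusedSectionVars false

namespace L5helper11.CL

open Finset MvPolynomial Pool.Agent.L5helper88.CP L5helper59.DC Pool.Agent.L5helper60.LA

section equiv

variable {σ τ : Type} [Fintype σ] [Fintype τ] [DecidableEq σ] [DecidableEq τ]

/-- critical points along a bijection of the variables -/
theorem crit_rename (e : σ ≃ τ) (f : MvPolynomial σ ℂ) (c : σ → ℂ) (S : Finset (σ → ℂ))
    (hS : Crit f c S) : ∃ (c' : τ → ℂ) (S' : Finset (τ → ℂ)), S'.card = S.card ∧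
      Crit (rename e f) c' S' := by
  have hinj : Function.Injective (fun (p : σ → ℂ) (v : τ) => p (e.symm v)) := by
    intro p p' h
    funext x
    have := congrFun h (e x)
    simpa using this
  have h1 : ∀ (g : MvPolynomial σ ℂ) (v : τ), pderiv v (rename e g) =
      rename e (pderiv (e.symm v) g) := by
    intro g v
    have := pderiv_rename (f := e) e.injective (x := e.symm v) (p := g)
    rwa [Equiv.apply_symm_apply] at this
  have h2 : ∀ (g : MvPolynomial σ ℂ) (p : σ → ℂ), eval (fun v => p (e.symm v)) (rename e g) =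
      eval p g := by
    intro g p
    rw [eval_rename]
    congr 2
    funext x
    simp
  refine ⟨fun v => c (e.symm v), S.map ⟨_, hinj⟩, card_map _, ?_, ?_⟩
  · intro p' hp' v
    obtain ⟨p, hp, rfl⟩ := mem_map.1 hp'
    change eval (fun v => p (e.symm v)) _ = _
    rw [h1, h2]
    exact hS.1 p hp _
  · intro p' hp' z hz
    obtain ⟨p, hp, rfl⟩ := mem_map.1 hp'
    have h3 : (fun i => z (e i)) = 0 := by
      apply hS.2 p hp
      intro j
      have h4 := hz (e j)
      rw [← Equiv.sum_comp e] at h4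
      rw [← h4]
      refine sum_congr rfl fun i _ => ?_
      congr 1
      change _ = eval (fun v => p (e.symm v)) _
      rw [h1, h1, h2, Equiv.symm_apply_apply, Equiv.symm_apply_apply]
    funext v
    have := congrFun h3 (e.symm v)
    simpa using this

/-- critical points of a multiple -/
theorem crit_smul (f : MvPolynomial σ ℂ) (K : ℂ) (hK : K ≠ 0) (c : σ → ℂ) (S : Finset (σ → ℂ))
    (hS : Crit f c S) : Crit (C K * f) (fun i => K * c i) S := by
  refine ⟨fun p hp i => ?_, fun p hp z hz => ?_⟩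
  · rw [pderiv_C_mul, map_mul, eval_C, hS.1 p hp i]
  · apply hS.2 p hp
    intro j
    have h := hz j
    have h2 : ∑ i, z i * eval p (pderiv i (pderiv j (C K * f))) =
        K * ∑ i, z i * eval p (pderiv i (pderiv j f)) := by
      rw [mul_sum]
      refine sum_congr rfl fun i _ => ?_
      rw [pderiv_C_mul, pderiv_C_mul, map_mul, eval_C]
      ring
    rw [h2] at h
    exact (mul_eq_zero.1 h).resolve_left hK

end equiv

/-- the sum of the elementary symmetric polynomials of degree `r` of the blocks -/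
noncomputable def tg (L V : Type) [Fintype L] [Fintype V] (r : ℕ) : MvPolynomial (L × V) ℂ :=
  ∑ l : L, ∑ I ∈ powersetCard r (univ : Finset V), ∏ i ∈ I, X (l, i)

/-- the critical points of the sum of elementary symmetric polynomials -/
theorem crit_tg {L V : Type} [Fintype L] [Fintype V] [DecidableEq L] [DecidableEq V] (q : ℕ)
    [NeZero q] (hV : Fintype.card V = 2 * q) :
    ∃ (c : L × V → ℂ) (S : Finset (L × V → ℂ)),
      S.card = ((q.factorial) ^ 2) ^ (Fintype.card L) ∧ Crit (tg L V (q + 1)) c S := by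
  classical
  have hq : 1 ≤ q := Nat.one_le_iff_ne_zero.2 (NeZero.ne q)
  obtain ⟨c₀, S₀, h00, h01, h02⟩ := DP.esymm_points q hq
  have hV' : Fintype.card (Fin 2 × ZMod q) = Fintype.card V := by
    rw [hV, Fintype.card_prod, Fintype.card_fin, ZMod.card]
  obtain ⟨c₁, S₁, h10, h1⟩ := crit_rename (Fintype.equivOfCardEq hV')
    (esymm (Fin 2 × ZMod q) ℂ (q + 1)) c₀ S₀ ⟨h01, h02⟩
  rw [rename_esymm] at h1
  -- the version with an additional trivial index
  let eU : V ≃ Unit × V := (Equiv.uniqueProd V Unit).symm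
  obtain ⟨c₂, S₂, h20, h2⟩ := crit_rename eU (esymm V ℂ (q + 1)) c₁ S₁ h1
  obtain ⟨c₃, S₃, h30, h3⟩ := crit_bsum (κ := Fintype.card L) (rename eU (esymm V ℂ (q + 1)))
    (fun _ => 1) (fun _ => one_ne_zero) c₂ S₂ h2
  let eL : Unit × Fin (Fintype.card L) × V ≃ L × V :=
    (Equiv.uniqueProd (Fin (Fintype.card L) × V) Unit).trans
      (Equiv.prodCongr (Fintype.equivFin L).symm (Equiv.refl V))
  obtain ⟨c₄, S₄, h40, h4⟩ := crit_rename eL _ c₃ S₃ h3
  refine ⟨c₄, S₄, by rw [h40, h30, h20, h10, h00], ?_⟩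
  have h5 : rename eL (bsum (rename eU (esymm V ℂ (q + 1))) (fun _ : Fin (Fintype.card L) =>
      (1 : ℂ))) = tg L V (q + 1) := by
    unfold bsum tg
    rw [map_sum, ← Equiv.sum_comp (Fintype.equivFin L).symm]
    refine sum_congr rfl fun l _ => ?_
    rw [C_1, one_mul, rename_rename, rename_rename, esymm, map_sum]
    refine sum_congr rfl fun I _ => ?_
    rw [map_prod]
    refine prod_congr rfl fun i _ => ?_
    rw [rename_X]
    rfl
  rw [h5] at h4
  exact h4

section entries

variable {σ : Type} [Fintype σ] [DecidableEq σ]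

/-- a permanent of affine forms is a substitution in every larger permanent -/
theorem exists_subst' {m m₀ : ℕ} (h : m₀ ≤ m) (M : Matrix (Fin m₀) (Fin m₀) (MvPolynomial σ ℂ))
    (hM : ∀ x y, (M x y).totalDegree ≤ 1) :
    ∃ (a : Fin m × Fin m → ℂ) (b : Fin m × Fin m → σ → ℂ),
      aeval (fun j => aff (a j) (b j)) (permPoly m) = M.permanent := by
  have h0 : ∀ p : MvPolynomial σ ℂ, p.totalDegree ≤ 1 → ∃ (a : ℂ) (b : σ → ℂ), aff a b = p := by
    intro p hp
    exact ⟨_, _, (Pool.Agent.L5helper11.DC.affine_eq p hp).symm⟩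
  have h1 : ∀ v : Fin m × Fin m, ∃ (a : ℂ) (b : σ → ℂ), aff a b =
      aeval (fun w : Fin m₀ × Fin m₀ => M w.1 w.2)
        (if hh : (v.1 : ℕ) < m₀ ∧ (v.2 : ℕ) < m₀ then
        (MvPolynomial.X (⟨v.1, hh.1⟩, ⟨v.2, hh.2⟩) : MvPolynomial (Fin m₀ × Fin m₀) ℂ)
      else if v.1 = v.2 then 1 else 0) := by
    intro v
    apply h0
    by_cases hh : (v.1 : ℕ) < m₀ ∧ (v.2 : ℕ) < m₀
    · rw [dif_pos hh, aeval_X]
      exact hM _ _
    · rw [dif_neg hh]
      by_cases he : v.1 = v.2
      · rw [if_pos he, map_one, totalDegree_one]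
        exact Nat.zero_le _
      · rw [if_neg he, map_zero, totalDegree_zero]
        exact Nat.zero_le _
  choose a b hab using h1
  refine ⟨a, b, ?_⟩
  have h3 := congrArg (aeval (fun w : Fin m₀ × Fin m₀ => M w.1 w.2))
    (L5helper67.DC.permPoly_corner m m₀ h)
  rw [show (fun j => aff (a j) (b j)) = _ from funext hab]
  have h4 : ∀ (φ : Fin m × Fin m → MvPolynomial (Fin m₀ × Fin m₀) ℂ)
      (P : MvPolynomial (Fin m × Fin m) ℂ),
      aeval (fun w : Fin m₀ × Fin m₀ => M w.1 w.2) (aeval φ P) =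
        aeval (fun v => aeval (fun w : Fin m₀ × Fin m₀ => M w.1 w.2) (φ v)) P := by
    intro φ P
    rw [← AlgHom.comp_apply, comp_aeval]
  rw [h4] at h3
  rw [h3]
  unfold permPoly Matrix.permanent
  rw [map_sum]
  refine sum_congr rfl fun s _ => ?_
  rw [map_prod]
  refine prod_congr rfl fun i _ => ?_
  simp

end entries

/-- **The inequality for programs.** -/
theorem prog_of_perm {σ : Type} [Fintype σ] [DecidableEq σ] (T : MvPolynomial σ ℂ) (c : σ → ℂ)
    (S : Finset (σ → ℂ)) (hS : Crit T c S) (Gk : ℕ → MvPolynomial σ ℂ) (Δ : ℕ)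
    (hdeg : ∀ k, (Gk k).totalDegree ≤ Δ) (hlim : CT Gk T) (m₀ m : ℕ) (hm : m₀ ≤ m)
    (hperm : ∀ k, ∃ (M₀ : Matrix (Fin m₀) (Fin m₀) (MvPolynomial σ ℂ)) (K : ℂ), K ≠ 0 ∧
      (∀ x y, (M₀ x y).totalDegree ≤ 1) ∧ M₀.permanent = C K * Gk k)
    (Pk : ℕ → MvPolynomial (Fin m × Fin m) ℂ) (D : ℕ) (hD : ∀ k, (Pk k).totalDegree ≤ D)
    (hP : CT Pk (permPoly m)) (s : ℕ)
    (hs : ∀ k, ∃ l : List (RF ℂ (Fin m × Fin m)), Prog (xv ℂ) l ∧
        l.length ≤ s ∧ algebraMap (MvPolynomial (Fin m × Fin m) ℂ) (RF ℂ (Fin m × Fin m)) (Pk k) ∈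
          Av (xv ℂ) {b | b ∈ l}) :
    S.card ≤ 2 ^ (Fintype.card σ + 2 * s) := by
  obtain ⟨k, S₁, h11, h12⟩ := crit_persist T Gk Δ hdeg hlim c S hS
  obtain ⟨M₀, K, hK, hM₀, hp⟩ := hperm k
  obtain ⟨a, b, hab⟩ := exists_subst' hm M₀ hM₀
  have h2 := crit_smul (Gk k) K hK c S₁ h12
  rw [← hp, ← hab] at h2
  have := size_bound (permPoly m) Pk D hD hP s hs a b _ S₁ h2
  rwa [h11] at this

/-- **The inequality for programs**, from the same hypotheses as `L5helper67.NC.assembly`. -/
theorem assembly_prog {L V : Type} [Fintype L] [Fintype V] (q : ℕ) [NeZero q]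
    (hV : Fintype.card V = 2 * q) (m₀ m : ℕ) (hm : m₀ ≤ m)
    (Gk : ℕ → MvPolynomial (Option (L × V)) ℂ) (Δ : ℕ)
    (hdeg : ∀ k, (Gk k).totalDegree ≤ Δ)
    (hlim : ∀ d, Filter.Tendsto (fun k => coeff d (Gk k)) Filter.atTop
      (nhds (coeff d ((X none + ∑ l : L, ∑ I ∈ powersetCard (q + 1) (univ : Finset V),
        ∏ i ∈ I, X (some (l, i)) : MvPolynomial (Option (L × V)) ℂ)))))
    (hperm : ∀ k, ∃ (M₀ : Matrix (Fin m₀) (Fin m₀) (MvPolynomial (Option (L × V)) ℂ)) (K : ℂ),
      K ≠ 0 ∧ (∀ x y, (M₀ x y).totalDegree ≤ 1) ∧ M₀.permanent = C K * Gk k)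
    (Pk : ℕ → MvPolynomial (Fin m × Fin m) ℂ) (D : ℕ) (hD : ∀ k, (Pk k).totalDegree ≤ D)
    (hP : CT Pk (permPoly m)) (s : ℕ)
    (hs : ∀ k, ∃ l : List (RF ℂ (Fin m × Fin m)), Prog (xv ℂ) l ∧
        l.length ≤ s ∧ algebraMap (MvPolynomial (Fin m × Fin m) ℂ) (RF ℂ (Fin m × Fin m)) (Pk k) ∈
          Av (xv ℂ) {b | b ∈ l}) :
    ((q.factorial) ^ 2) ^ (Fintype.card L) ≤ 2 ^ (Fintype.card L * (2 * q) + 2 * s) := by
  classical
  obtain ⟨c, S, hScard, hS⟩ := crit_tg (L := L) (V := V) q hV
  -- drop the additional variable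
  let θ : Option (L × V) → MvPolynomial (L × V) ℂ := fun o => o.elim 0 X
  have hθ : ∀ o, (θ o).totalDegree ≤ 1 := by
    intro o
    cases o with
    | none => simp [θ]
    | some i => simp [θ]
  have hT : aeval θ ((X none + ∑ l : L, ∑ I ∈ powersetCard (q + 1) (univ : Finset V),
        ∏ i ∈ I, X (some (l, i)) : MvPolynomial (Option (L × V)) ℂ)) = tg L V (q + 1) := by
    rw [map_add, aeval_X, map_sum]
    change 0 + _ = _
    rw [zero_add]
    unfold tg
    refine sum_congr rfl fun l _ => ?_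
    rw [map_sum]
    refine sum_congr rfl fun I _ => ?_
    rw [map_prod]
    refine prod_congr rfl fun i _ => ?_
    rw [aeval_X]
    rfl
  have key := prog_of_perm (tg L V (q + 1)) c S hS (fun k => aeval θ (Gk k)) Δ
    (fun k => (L5helper67.DC.totalDegree_aeval_le _ hθ _).trans (hdeg k))
    (by
      rw [← hT]
      exact CT.aeval (fun _ => θ) θ (fun _ => CT.const _) Δ _ Gk hdeg hlim) m₀ m hm
    (fun k => by
      obtain ⟨M₀, K, hK, hM₀, hp⟩ := hperm k
      refine ⟨M₀.map (aeval θ : MvPolynomial (Option (L × V)) ℂ →ₐ[ℂ] _), K, hK,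
        fun x y => ?_, ?_⟩
      · rw [Matrix.map_apply]
        exact (L5helper67.DC.totalDegree_aeval_le _ hθ _).trans (hM₀ x y)
      · have h1 : (M₀.map (aeval θ : MvPolynomial (Option (L × V)) ℂ →ₐ[ℂ]
            MvPolynomial (L × V) ℂ)).permanent = aeval θ M₀.permanent := by
          unfold Matrix.permanent
          rw [map_sum]
          refine sum_congr rfl fun s _ => ?_
          rw [map_prod]
          rfl
        rw [h1, hp, map_mul, aeval_C]
        rfl) Pk D hD hP s hs
  rw [hScard] at key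
  have hcard : Fintype.card (L × V) = Fintype.card L * (2 * q) := by
    rw [Fintype.card_prod, hV]
  rwa [hcard] at key

end L5helper11.CL
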